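import Pool.Agent.H417_rb.Points
import Pool.Agent.H417_rb.Late
import Pool.Agent.H417_rb.Count

set_option autoImplicit false

/-!
# Points with three or more `p/q`-expansions: a power saving
-/

namespace Pool.Agent.Results.MP_e115c2_nt.PowerSaving

open Pool.Agent.H417_rb Finset

/-- Let `p > q` be coprime and `j ≥ 1` with `(p-q) j ≤ q - 2`. There are `C > 0` and
`0 < δ < log (q - (p-q) j) / log q` such that for all `k` and every interval `[a, b]`: the number
of points of `[a, b]` having `j + 2` expansions with pairwise distinct prefixes of length `k` is at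
most `C * N ^ (log (q - (p-q) j) / log q - δ)`, where `N` is the (finite) number of the points of
`[a, b]` having two expansions with distinct prefixes of length `k`. -/
theorem result (p q j : ℕ) (hpq : q < p) (hc : p.Coprime q) (hj1 : 1 ≤ j)
    (hj : (p - q) * j + 2 ≤ q) :
    ∃ C δ : ℝ, 0 < C ∧ 0 < δ ∧ δ < Real.log ((q - (p - q) * j : ℕ) : ℝ) / Real.log q ∧
      ∀ (k : ℕ) (a b : ℝ), (Multi p q 2 k ∩ Set.Icc a b).Finite ∧
      ((Multi p q (j + 2) k ∩ Set.Icc a b).ncard : ℝ) ≤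
        C * ((Multi p q 2 k ∩ Set.Icc a b).ncard : ℝ) ^
          (Real.log ((q - (p - q) * j : ℕ) : ℝ) / Real.log q - δ) := by
  classical
  have hq : 2 ≤ q := by omega
  have hq1 : 1 ≤ q := by omega
  have hr1 : 1 ≤ p - q := by omega
  have hrj : 1 ≤ (p - q) * j := Nat.mul_pos hr1 hj1
  obtain ⟨C1, κ1, Λ, hC1, hκ10, hκ11, hΛ, hlate⟩ := late_count hpq hc hj hj1
  obtain ⟨C2, κ2, hC2, hκ20, hκ21, hearly⟩ := count_restricted hq hpq hc
    (D := Finset.Ico ((p - q) * j) q) (fun b hb => (Finset.mem_Ico.mp hb).2)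
    (by rw [Nat.card_Ico]; omega) (by rw [Nat.card_Ico]; omega) hΛ
  rw [Nat.card_Ico] at hearly
  set B := q - (p - q) * j with hB
  have hB2 : 2 ≤ B := by omega
  have hBq : B ≤ q := by omega
  have hq0 : (0:ℝ) < q := by exact_mod_cast (by omega : 0 < q)
  have hqgt : (1:ℝ) < q := by exact_mod_cast (by omega : 1 < q)
  have hlogq : 0 < Real.log q := Real.log_pos hqgt
  have hB0 : (0:ℝ) < B := by exact_mod_cast (by omega : 0 < B)
  have hB1 : (1:ℝ) < B := by exact_mod_cast (by omega : 1 < B)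
  set κ := max κ1 κ2 with hκ
  have hκ0 : 0 < κ := lt_max_of_lt_left hκ10
  have hκ1 : κ < 1 := max_lt hκ11 hκ21
  set γ := Real.log (B : ℝ) / Real.log q with hγ
  have hγ0 : 0 < γ := div_pos (Real.log_pos hB1) hlogq
  have hγ1 : γ ≤ 1 := by
    rw [hγ, div_le_one hlogq]
    exact Real.log_le_log hB0 (by exact_mod_cast hBq)
  set δ0 := - Real.log κ / Real.log q with hδ0
  have hδ00 : 0 < δ0 := div_pos (by linarith [Real.log_neg hκ0 hκ1]) hlogq
  set δ := min δ0 (γ / 2) with hδ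
  have hδpos : 0 < δ := lt_min hδ00 (by positivity)
  have hδγ : δ < γ := lt_of_le_of_lt (min_le_right _ _) (by linarith)
  have hexp0 : 0 ≤ γ - δ := by linarith
  have hexp1 : γ - δ ≤ 1 := by linarith
  -- κ B ≤ q^(γ-δ)
  have hκB : κ * B ≤ (q:ℝ) ^ (γ - δ) := by
    have h1 : (B:ℝ) = (q:ℝ) ^ γ := by
      rw [Real.rpow_def_of_pos hq0, hγ, mul_div_cancel₀ _ hlogq.ne', Real.exp_log hB0]
    have h2 : κ = (q:ℝ) ^ (-δ0) := by
      rw [Real.rpow_def_of_pos hq0, hδ0]
      have : Real.log q * -(-Real.log κ / Real.log q) = Real.log κ := by field_simp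
      rw [this, Real.exp_log hκ0]
    have h3 : (q:ℝ) ^ (-δ0) ≤ (q:ℝ) ^ (-δ) :=
      Real.rpow_le_rpow_of_exponent_le hqgt.le (by linarith [min_le_left δ0 (γ/2)])
    calc κ * B ≤ (q:ℝ) ^ (-δ) * (q:ℝ) ^ γ := by rw [h1]; gcongr; rw [h2]; exact h3
      _ = (q:ℝ) ^ (γ - δ) := by rw [← Real.rpow_add hq0]; congr 1; ring
  set s := (p - 1) / (p - q) + 1 with hs
  have hs1 : 1 ≤ s := by rw [hs]; exact Nat.le_add_left _ _
  refine ⟨(C1 + C2) * (q * s), δ, by positivity, hδpos, hδγ, ?_⟩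
  intro k a b
  refine ⟨finite_two hq1 hpq k a b, ?_⟩
  set M := Multi p q (j + 2) k ∩ Set.Icc a b with hM
  set E := Multi p q 2 k ∩ Set.Icc a b with hE
  have hEfin : E.Finite := finite_two hq1 hpq k a b
  have hME : M ⊆ E := Set.inter_subset_inter_left _ multi_mono
  have hMfin : M.Finite := hEfin.subset hME
  rcases M.eq_empty_or_nonempty with hemp | hne
  · rw [hemp, Set.ncard_empty]
    simp only [Nat.cast_zero]
    positivity
  choose! n hn using fun (x : ℝ) (hx : x ∈ Multi p q (j + 2) k) => exists_anchor hq1 hpq hx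
  have hinj : Set.InjOn n M := by
    intro x hx y hy he
    have h1 := hn x hx.1
    have h2 := hn y hy.1
    rw [← he] at h2
    exact h1.inj hq1 hpq h2
  -- extreme anchors
  obtain ⟨x1, hx1, hmin⟩ := Set.exists_min_image M n hMfin hne
  obtain ⟨x2, hx2, hmax⟩ := Set.exists_max_image M n hMfin hne
  have h12 : n x1 ≤ n x2 := hmin x2 hx2
  have hN2 := many_double hq1 hpq hx1.2 hx2.2 (hn x1 hx1.1) (hn x2 hx2.1) h12
  rw [← hs] at hN2
  set N2 := E.ncard with hN2def
  have hlen : n x2 - n x1 + 1 ≤ s * N2 := by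
    have h1 : n x2 - n x1 < s * ((n x2 - n x1) / s + 1) := by
      have := Nat.lt_div_mul_add (a := n x2 - n x1) (b := s) (by omega)
      rw [mul_add, mul_one, mul_comm]; exact this
    have h2 : s * ((n x2 - n x1) / s + 1) ≤ s * N2 := Nat.mul_le_mul_left s hN2
    omega
  set K0 := Nat.clog q (n x2 - n x1 + 1) with hK0
  have hK1 : n x2 - n x1 + 1 ≤ q ^ K0 := Nat.le_pow_clog (by omega) _
  have hK2 : q ^ K0 ≤ q * (s * N2) := by
    rcases Nat.lt_or_ge 1 (n x2 - n x1 + 1) with h | h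
    · have h1 := Nat.pow_pred_clog_lt_self (b := q) (by omega) h
      rw [← hK0] at h1
      have hKpos : 0 < K0 := Nat.clog_pos (by omega) (by omega)
      have h2 : q ^ K0 = q * q ^ (K0 - 1) := by
        obtain ⟨K', hK'⟩ := Nat.exists_eq_succ_of_ne_zero hKpos.ne'
        rw [hK', Nat.succ_sub_one, pow_succ']
      rw [h2]
      apply Nat.mul_le_mul_left
      have : q ^ (K0 - 1) < n x2 - n x1 + 1 := h1
      omega
    · have : K0 = 0 := by
        rw [hK0]
        exact Nat.clog_of_right_le_one h q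
      rw [this, pow_zero]
      have : 1 ≤ s * N2 := by omega
      nlinarith
  -- the nodes
  set S := hMfin.toFinset.image n with hS
  have hScard : M.ncard = S.card := by
    rw [hS, Finset.card_image_of_injOn (by simpa using hinj), Set.ncard_eq_toFinset_card M hMfin]
  have hSrange : ∀ m ∈ S, ∀ m' ∈ S, m' < m + q ^ K0 := by
    intro m hm m' hm'
    simp only [hS, Finset.mem_image, Set.Finite.mem_toFinset] at hm hm'
    obtain ⟨x, hx, rfl⟩ := hm
    obtain ⟨y, hy, rfl⟩ := hm'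
    have a1 := hmin x hx
    have a4 := hmax y hy
    omega
  have hSgood : ∀ m ∈ S, ∀ i, (g p q)^[i] (m + j) ≤ (g p q)^[i] m + (q - 1) / (p - q) := by
    intro m hm i
    simp only [hS, Finset.mem_image, Set.Finite.mem_toFinset] at hm
    obtain ⟨x, hx, rfl⟩ := hm
    exact (hn x hx.1).good hq1 hpq i
  set K := K0 + (K0 / Λ + 1) with hK
  set S1 := S.filter (fun m => (g p q)^[K] (m + j) = (g p q)^[K] m + j) with hS1
  set S2 := S.filter (fun m => ¬ (g p q)^[K] (m + j) = (g p q)^[K] m + j) with hS2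
  have hsplit : S1.card + S2.card = S.card := Finset.card_filter_add_card_filter_not _
  have hb1 : (S1.card : ℝ) ≤ C2 * (κ2 * B) ^ K0 := by
    apply hearly K0 K
    · rw [hK]
      have h1 : K0 + (K0 / Λ + 1) - K0 = K0 / Λ + 1 := Nat.add_sub_cancel_left _ _
      rw [h1]
      exact (Nat.lt_mul_div_succ K0 hΛ).le
    · intro m hm m' hm'
      exact hSrange m (Finset.mem_filter.mp hm).1 m' (Finset.mem_filter.mp hm').1
    · intro m hm
      exact digits_of_gap hq1 hpq (by omega) (Finset.mem_filter.mp hm).2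
  have hb2 : (S2.card : ℝ) ≤ C1 * (κ1 * B) ^ K0 := by
    apply hlate K0 S2
    · intro m hm m' hm'
      exact hSrange m (Finset.mem_filter.mp hm).1 m' (Finset.mem_filter.mp hm').1
    · intro m hm
      have h1 := (Finset.mem_filter.mp hm).2
      have h2 := g_iter_add_le hq1 hpq m j K
      show (g p q)^[K] m + (j + 1) ≤ (g p q)^[K] (m + j)
      omega
    · intro m hm
      exact hSgood m (Finset.mem_filter.mp hm).1
  have hcard : (M.ncard : ℝ) ≤ (C1 + C2) * (κ * B) ^ K0 := by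
    have e1 : (κ1 * B) ^ K0 ≤ (κ * B) ^ K0 := by
      have : κ1 ≤ κ := le_max_left _ _
      gcongr
    have e2 : (κ2 * B) ^ K0 ≤ (κ * B) ^ K0 := by
      have : κ2 ≤ κ := le_max_right _ _
      gcongr
    rw [hScard, ← hsplit]
    push_cast
    have e3 := mul_le_mul_of_nonneg_left e1 hC1.le
    have e4 := mul_le_mul_of_nonneg_left e2 hC2.le
    linarith
  have hqs : (1:ℝ) ≤ (q:ℝ) * s := by
    have : 1 ≤ q * s := Nat.mul_pos (by omega) hs1
    exact_mod_cast this
  calc (M.ncard : ℝ) ≤ (C1 + C2) * (κ * B) ^ K0 := hcard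
    _ ≤ (C1 + C2) * ((q:ℝ) ^ (γ - δ)) ^ K0 := by gcongr
    _ = (C1 + C2) * ((q:ℝ) ^ K0) ^ (γ - δ) := by
        rw [← Real.rpow_natCast, ← Real.rpow_natCast, ← Real.rpow_mul hq0.le,
          ← Real.rpow_mul hq0.le, mul_comm (γ - δ)]
    _ ≤ (C1 + C2) * (((q:ℝ) * s) * (N2 : ℝ)) ^ (γ - δ) := by
        have h1 : ((q:ℝ) ^ K0) ≤ ((q:ℝ) * s) * (N2 : ℝ) := by
          have : ((q ^ K0 : ℕ) : ℝ) ≤ ((q * (s * N2) : ℕ) : ℝ) := by exact_mod_cast hK2
          push_cast at this
          linarith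
        gcongr
    _ = (C1 + C2) * (((q:ℝ) * s) ^ (γ - δ) * (N2 : ℝ) ^ (γ - δ)) := by
        rw [Real.mul_rpow (by positivity) (by positivity)]
    _ ≤ (C1 + C2) * (((q:ℝ) * s) * (N2 : ℝ) ^ (γ - δ)) := by
        have h1 : ((q:ℝ) * s) ^ (γ - δ) ≤ (q:ℝ) * s := by
          calc ((q:ℝ) * s) ^ (γ - δ) ≤ ((q:ℝ) * s) ^ (1:ℝ) :=
                Real.rpow_le_rpow_of_exponent_le hqs hexp1
            _ = _ := Real.rpow_one _
        gcongr
    _ = (C1 + C2) * (q * s) * (N2 : ℝ) ^ (γ - δ) := by ring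

end Pool.Agent.Results.MP_e115c2_nt.PowerSaving
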