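import Pool.Agent.H417_rb.Sep
import Pool.Agent.H417_rb.RepelTwo

set_option autoImplicit false

/-!
# Points with many expansions are far apart
-/

namespace Pool.Agent.Results.MP_e115c2_nt.Repulsion

open Pool.Agent.H417_rb Finset

lemma params {p q m J : ℕ} (hq : 3 ≤ q) (hpq : q < p) (hp2 : p ≤ 2 * q)
    (hm1 : 1 ≤ m) (hJ : 1 ≤ J) (hmq : m ≤ q)
    (hJ2 : 40 * (J:ℝ) * (m:ℝ) ^ 2 * Real.log q ≤ (q:ℝ) ^ 2) :
    5 * Real.log q ≤ (q:ℝ) ^ 2 / (8 * J * (m:ℝ) ^ 2) ∧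
    4 * ((q ^ 4 : ℕ) : ℝ) ≤ Real.exp (5 * Real.log q) ∧
    2 * (J:ℝ) * ((m:ℝ) / ((p:ℝ) - q)) * (q:ℝ) ^ (J - 1) * ((p:ℝ)/q) <
      (((p:ℝ) - q) / (16 * q * (4 * J * ((m:ℝ) / ((p:ℝ) - q)) + 1)) * (3 * q / p) ^ J) *
        ((p:ℝ)/q) ^ (q ^ 4) := by
  have hq0 : (0:ℝ) < q := by exact_mod_cast (by omega : 0 < q)
  have hq3 : (3:ℝ) ≤ q := by exact_mod_cast hq
  have hp0 : (0:ℝ) < p := by exact_mod_cast (by omega : 0 < p)
  have hm0 : (1:ℝ) ≤ m := by exact_mod_cast hm1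
  have hJ0 : (1:ℝ) ≤ J := by exact_mod_cast hJ
  have hmq' : (m:ℝ) ≤ q := by exact_mod_cast hmq
  have hr1 : (1:ℝ) ≤ (p:ℝ) - q := by
    have h2 : ((q + 1 : ℕ) : ℝ) ≤ (p : ℝ) := by exact_mod_cast hpq
    push_cast at h2
    linarith
  have hrq : (p:ℝ) - q ≤ q := by
    have : (p:ℝ) ≤ 2 * q := by exact_mod_cast hp2
    linarith
  have hlog1 : 1 ≤ Real.log q := by
    rw [Real.le_log_iff_exp_le hq0]
    have := Real.exp_one_lt_d9
    linarith
  have hlogq : Real.log q ≤ q - 1 := Real.log_le_sub_one_of_pos hq0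
  have hm2 : (m:ℝ) ≤ (m:ℝ)^2 := by nlinarith
  have hJm : (J:ℝ) * m ≤ q ^ 2 / 40 := by
    have h2 : (J:ℝ) * m ≤ (J:ℝ) * (m:ℝ)^2 := by gcongr
    have h3 : (J:ℝ) * (m:ℝ)^2 * 1 ≤ (J:ℝ) * (m:ℝ)^2 * Real.log q := by
      apply mul_le_mul_of_nonneg_left hlog1 (by positivity)
    linarith
  have hJl : (J:ℝ) * Real.log q ≤ q ^ 2 / 40 := by
    have h2 : (1:ℝ) ≤ (m:ℝ)^2 := by nlinarith
    have h3 : ((J:ℝ) * Real.log q) * 1 ≤ ((J:ℝ) * Real.log q) * (m:ℝ)^2 := by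
      apply mul_le_mul_of_nonneg_left h2 (by positivity)
    linarith
  have hq40 : (40:ℝ) ≤ (q:ℝ)^2 := by
    have : 1 ≤ (J:ℝ) * m := by nlinarith
    linarith
  have hq6 : (6:ℝ) ≤ q := by nlinarith
  refine ⟨?_, ?_, ?_⟩
  · rw [le_div_iff₀ (by positivity)]
    linarith
  · have e : Real.exp (5 * Real.log q) = (q:ℝ) ^ 5 := by
      rw [mul_comm, Real.exp_mul, Real.exp_log hq0]
      norm_cast
    rw [e]
    push_cast
    have h3 : (q:ℝ) ^ 5 = (q:ℝ) * (q:ℝ) ^ 4 := by ring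
    rw [h3]
    have h4 : 0 ≤ (q:ℝ)^4 := by positivity
    nlinarith
  · set r := (p:ℝ) - q with hr
    have hr0 : 0 < r := by linarith
    have hlogβ : r / (2 * q) ≤ Real.log ((p:ℝ)/q) := by
      have h1 := Real.one_sub_inv_le_log_of_pos (by positivity : 0 < (p:ℝ)/q)
      have h2 : 1 - ((p:ℝ)/q)⁻¹ = r / p := by
        rw [inv_div, hr]; field_simp
      rw [h2] at h1
      refine le_trans ?_ h1
      have : (p:ℝ) ≤ 2 * q := by exact_mod_cast hp2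
      gcongr
    have hR : Real.exp ((q:ℝ)^3 / 2) ≤ ((p:ℝ)/q) ^ (q ^ 4) := by
      rw [← Real.exp_log (by positivity : 0 < ((p:ℝ)/q) ^ (q ^ 4)), Real.log_pow]
      apply Real.exp_le_exp.mpr
      calc (q:ℝ)^3 / 2 = ((q ^ 4 : ℕ) : ℝ) * (1 / (2 * q)) := by push_cast; field_simp
        _ ≤ ((q ^ 4 : ℕ) : ℝ) * (r / (2 * q)) := by gcongr
        _ ≤ _ := by gcongr
    have hbase : 1 ≤ (3 * (q:ℝ) / p) ^ J := by
      apply one_le_pow₀
      rw [le_div_iff₀ hp0]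
      linarith
    have hexp : (q:ℝ) ^ (J + 5) < Real.exp ((q:ℝ)^3 / 2) := by
      rw [← Real.exp_log (by positivity : 0 < (q:ℝ) ^ (J + 5)), Real.log_pow]
      apply Real.exp_lt_exp.mpr
      push_cast
      have h4 : ((J:ℝ) + 5) * Real.log q ≤ q ^ 2 / 40 + 5 * (q - 1) := by
        rw [add_mul]
        linarith
      have h5 : (q:ℝ) ^ 2 / 40 + 5 * (q - 1) < (q:ℝ)^3 / 2 := by
        have h6 : (q:ℝ)^3 = q^2 * q := by ring
        have h7 : (q:ℝ)^2 * 6 ≤ q^2 * q := by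
          apply mul_le_mul_of_nonneg_left hq6 (by positivity)
        nlinarith
      linarith
    set B := 4 * (J:ℝ) * (m / r) + 1 with hB
    have hB0 : 0 < B := by positivity
    have hBq : B ≤ q ^ 2 := by
      have h1 : (m:ℝ) / r ≤ m := div_le_self (by linarith) hr1
      have h2 : 4 * (J:ℝ) * (m / r) ≤ 4 * ((J:ℝ) * m) := by
        calc 4 * (J:ℝ) * (m / r) ≤ 4 * (J:ℝ) * m := by gcongr
          _ = _ := by ring
      rw [hB]
      linarith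
    have hθ : (m:ℝ) / r ≤ m := div_le_self (by linarith) hr1
    -- reduce to a bound on the left side times 16 q B / r
    have hkey : 2 * (J:ℝ) * (m / r) * (q:ℝ) ^ (J - 1) * ((p:ℝ)/q) * (16 * q * B / r) ≤ (q:ℝ) ^ (J + 5) := by
      have e1 : (q:ℝ) ^ (J + 5) = q ^ 6 * (q:ℝ) ^ (J - 1) := by
        rw [← pow_add]; congr 1; omega
      rw [e1]
      have hpq2 : (p:ℝ)/q ≤ 2 := by
        rw [div_le_iff₀ hq0]; linarith
      have h1 : 16 * q * B / r ≤ 16 * q * B := div_le_self (by positivity) hr1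
      calc 2 * (J:ℝ) * (m / r) * (q:ℝ) ^ (J - 1) * ((p:ℝ)/q) * (16 * q * B / r)
          ≤ 2 * (J:ℝ) * m * (q:ℝ) ^ (J - 1) * 2 * (16 * q * (q:ℝ)^2) := by
            refine mul_le_mul ?_ (h1.trans ?_) (by positivity) (by positivity)
            · gcongr
            · gcongr
        _ = (64 * q ^ 3 * ((J:ℝ) * m)) * (q:ℝ) ^ (J - 1) := by ring
        _ ≤ (q:ℝ) ^ 6 * (q:ℝ) ^ (J - 1) := by
            apply mul_le_mul_of_nonneg_right _ (by positivity)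
            calc 64 * (q:ℝ) ^ 3 * ((J:ℝ) * m) ≤ 64 * (q:ℝ) ^ 3 * ((q:ℝ) ^ 2 / 40) := by gcongr
              _ = (8 / 5) * (q:ℝ) ^ 5 := by ring
              _ ≤ (q:ℝ) * (q:ℝ) ^ 5 := by gcongr; linarith
              _ = (q:ℝ) ^ 6 := by ring
    have hc0 : 0 < r / (16 * q * B) := by positivity
    have e2 : 2 * (J:ℝ) * (m / r) * (q:ℝ) ^ (J - 1) * ((p:ℝ)/q) =
        (2 * (J:ℝ) * (m / r) * (q:ℝ) ^ (J - 1) * ((p:ℝ)/q) * (16 * q * B / r)) * (r / (16 * q * B)) := by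
      field_simp
    rw [e2]
    calc (2 * (J:ℝ) * (m / r) * (q:ℝ) ^ (J - 1) * ((p:ℝ)/q) * (16 * q * B / r)) * (r / (16 * q * B))
        ≤ (q:ℝ) ^ (J + 5) * (r / (16 * q * B)) := by gcongr
      _ < Real.exp ((q:ℝ)^3 / 2) * (r / (16 * q * B)) := by gcongr
      _ ≤ ((p:ℝ)/q) ^ (q ^ 4) * (r / (16 * q * B)) := by gcongr
      _ = (r / (16 * q * B) * 1) * ((p:ℝ)/q) ^ (q ^ 4) := by ring
      _ ≤ (r / (16 * q * B) * (3 * q / p) ^ J) * ((p:ℝ)/q) ^ (q ^ 4) := by gcongr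

/-- Let `p > q` be coprime, `j, m ≥ 1` with `q = (p-q) j + m + 1`, and let `J` satisfy
`40 J m² log q ≤ q²` and `16 J m + 4 (p-q) < 3^J (p-q)`. Put
`Y = (p-q)/(16 q (4 J m/(p-q) + 1)) (3q/p)^J`. If `x` has at least `j + 2` expansions, any two of
which differ in their first `k` digits, then `(p/q)^k x ≥ Y`, in particular
`(p/q)^k (p-1)/(p-q) ≥ Y`, and `(p/q)^k |x - y| ≥ Y` for every other such real number `y`. -/
theorem result (p q j m J : ℕ) (hc : p.Coprime q) (hpq : q < p) (hj : 1 ≤ j) (hm1 : 1 ≤ m)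
    (hqj : q = (p - q) * j + m + 1)
    (hJ2 : 40 * (J:ℝ) * (m:ℝ) ^ 2 * Real.log q ≤ (q:ℝ) ^ 2)
    (hJ3 : 16 * J * m + 4 * (p - q) < 3 ^ J * (p - q)) (k : ℕ) (x : ℝ)
    (hx : AllSeparated p q k x) (hcard : ((j + 2 : ℕ) : ℕ∞) ≤ (Expansions p q x).encard) :
    ((p:ℝ) - q) / (16 * q * (4 * J * ((m:ℝ) / ((p:ℝ) - q)) + 1)) * (3 * q / p) ^ J ≤
        ((p:ℝ)/q) ^ k * (((p:ℝ) - 1) / ((p:ℝ) - q)) ∧
    ((p:ℝ) - q) / (16 * q * (4 * J * ((m:ℝ) / ((p:ℝ) - q)) + 1)) * (3 * q / p) ^ J ≤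
        ((p:ℝ)/q) ^ k * x ∧
    ∀ y, AllSeparated p q k y → ((j + 2 : ℕ) : ℕ∞) ≤ (Expansions p q y).encard → y ≠ x →
      ((p:ℝ) - q) / (16 * q * (4 * J * ((m:ℝ) / ((p:ℝ) - q)) + 1)) * (3 * q / p) ^ J ≤
        ((p:ℝ)/q) ^ k * |x - y| := by
  have hrj : p - q ≤ (p - q) * j := Nat.le_mul_of_pos_right _ hj
  have hq : 3 ≤ q := by omega
  have hq1 : 1 ≤ q := by omega
  have hp2 : p ≤ 2 * q := by omega
  have hmq : m ≤ q := by omega
  have hJ : 1 ≤ J := by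
    rcases Nat.eq_zero_or_pos J with h0 | h0
    · subst h0
      simp at hJ3
      omega
    · exact h0
  have hq0 : (0:ℝ) < q := by exact_mod_cast (by omega : 0 < q)
  have hp0 : (0:ℝ) < p := by exact_mod_cast (by omega : 0 < p)
  have hr : (0:ℝ) < (p:ℝ) - q := by
    have : (q:ℝ) < p := by exact_mod_cast hpq
    linarith
  have hβ1 := beta_gt_one hq1 hpq
  have hβk : 0 < ((p:ℝ)/q) ^ k := by positivity
  obtain ⟨hE, hbig, hK⟩ := params hq hpq hp2 hm1 hJ hmq hJ2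
  have hSJ : 4 * (4 * J * ((m:ℝ) / ((p:ℝ) - q)) + 1) < 3 ^ J := by
    have h1 : ((16 * J * m + 4 * (p - q) : ℕ) : ℝ) < ((3 ^ J * (p - q) : ℕ) : ℝ) := by
      exact_mod_cast hJ3
    push_cast [Nat.cast_sub hpq.le] at h1
    have e : 4 * (4 * (J:ℝ) * ((m:ℝ) / ((p:ℝ) - q)) + 1) =
        (16 * J * m + 4 * ((p:ℝ) - q)) / ((p:ℝ) - q) := by
      field_simp
      ring
    rw [e, div_lt_iff₀ hr]
    exact h1
  obtain ⟨N, b, hN0, hNrec, hb, hlo, hup⟩ := top_path_sep hq1 hpq hqj hx hcard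
  have hx0 : 0 < ((p:ℝ)/q) ^ k * x := by
    have := hlo 0
    simp only [add_zero] at this
    have h3 : (1:ℝ) ≤ N 0 := by exact_mod_cast hN0
    linarith
  have hsecond : ((p:ℝ) - q) / (16 * q * (4 * J * ((m:ℝ) / ((p:ℝ) - q)) + 1)) * (3 * q / p) ^ J ≤
      ((p:ℝ)/q) ^ k * x := by
    have h1 := xi_ge (Δ := fun i => (N i : ℤ)) (c := fun i => (b i : ℤ))
      (ξ := ((p:ℝ)/q) ^ k * x) hq hpq hc hm1 hJ hx0.ne'
      (by intro i; exact_mod_cast hNrec i)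
      (by intro i; rw [abs_of_nonneg (by positivity)]; exact_mod_cast hb i)
      (by
        intro i
        have h1 := hlo i
        have h2 := hup i
        have e : ((p:ℝ)/q) ^ k * x * ((p:ℝ)/q) ^ i = ((p:ℝ)/q) ^ (k + i) * x := by
          rw [pow_add]; ring
        rw [e]
        push_cast
        rw [abs_le]
        have : 0 ≤ (m:ℝ) / ((p:ℝ) - q) := by positivity
        constructor <;> linarith)
      hSJ hE hbig rfl hK
    rwa [abs_of_pos hx0] at h1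
  refine ⟨?_, hsecond, ?_⟩
  · -- x ≤ (p-1)/(p-q)
    have hne : (Expansions p q x).Nonempty := by
      rw [← Set.one_le_encard_iff_nonempty]
      refine le_trans ?_ hcard
      exact_mod_cast (by omega : 1 ≤ j + 2)
    obtain ⟨u, ⟨hup', n, hn⟩, hval⟩ := hne
    have h1 := le_node' hq1 hpq hup' hn 0
    rw [hval, hn.1] at h1
    simp only [pow_zero, one_mul, Nat.cast_zero, zero_add] at h1
    refine hsecond.trans ?_
    gcongr
  · intro y hy hycard hyx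
    obtain ⟨N', b', hN0', hNrec', hb', hlo', hup'⟩ := top_path_sep hq1 hpq hqj hy hycard
    have hd : ∀ i, |((p:ℝ)/q) ^ k * (x - y) * ((p:ℝ)/q) ^ i - (((N i : ℤ) - (N' i : ℤ) : ℤ) : ℝ)| ≤
        (m:ℝ) / ((p:ℝ) - q) := by
      intro i
      have h1 := hlo i
      have h2 := hup i
      have h3 := hlo' i
      have h4 := hup' i
      have e : ((p:ℝ)/q) ^ k * (x - y) * ((p:ℝ)/q) ^ i =
          ((p:ℝ)/q) ^ (k + i) * x - ((p:ℝ)/q) ^ (k + i) * y := by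
        rw [pow_add]; ring
      rw [e]
      push_cast
      rw [abs_le]
      constructor <;> linarith
    have hrec : ∀ i, (q:ℤ) * ((N (i+1) : ℤ) - (N' (i+1) : ℤ)) =
        p * ((N i : ℤ) - (N' i : ℤ)) + ((b i : ℤ) - (b' i : ℤ)) := by
      intro i
      have h1 : (q:ℤ) * N (i+1) = p * N i + b i := by exact_mod_cast hNrec i
      have h2 : (q:ℤ) * N' (i+1) = p * N' i + b' i := by exact_mod_cast hNrec' i
      linear_combination h1 - h2
    have hcb : ∀ i, |(b i : ℤ) - (b' i : ℤ)| ≤ m := by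
      intro i
      have h1 := hb i
      have h2 := hb' i
      rw [abs_le]
      constructor <;> omega
    have hne : ((p:ℝ)/q) ^ k * (x - y) ≠ 0 :=
      mul_ne_zero hβk.ne' (sub_ne_zero.mpr (Ne.symm hyx))
    have h1 := xi_ge (Δ := fun i => (N i : ℤ) - (N' i : ℤ)) (c := fun i => (b i : ℤ) - (b' i : ℤ))
      (ξ := ((p:ℝ)/q) ^ k * (x - y)) hq hpq hc hm1 hJ hne hrec hcb hd hSJ hE hbig rfl hK
    rwa [abs_mul, abs_of_pos hβk] at h1

end Pool.Agent.Results.MP_e115c2_nt.Repulsion
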