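import Pool.Agent.H417_rb.Basic

set_option autoImplicit false

/-!
# An explicit bound for the number of `p/q`-expansions, for every rational base
-/

namespace Pool.Agent.Results.MP_e115c2_nt.UniformBound

open Pool.Agent.H417_rb

lemma nat_bound {p q : ℕ} (hq : 1 ≤ q) (hpq : q < p) :
    p - 1 ≤ (2 + (q - 2) / (p - q)) * (p - q) := by
  have h1 : 0 < p - q := by omega
  have h2 : q - 2 < ((q - 2) / (p - q) + 1) * (p - q) := by
    have := Nat.lt_div_mul_add (a := q - 2) (b := p - q) h1
    rw [add_mul, one_mul]; exact this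
  have h3 : (2 + (q - 2) / (p - q)) * (p - q) = ((q - 2) / (p - q) + 1) * (p - q) + (p - q) := by ring
  rw [h3]
  omega

/-- `B + 1` distinct natural numbers: some two differ by at least `B`. -/
lemma spread {B : ℕ} (f : Fin (B + 1) → ℕ) (hf : Function.Injective f) :
    ∃ i j, f i + B ≤ f j := by
  obtain ⟨i, -, hi⟩ := Finset.exists_min_image Finset.univ f ⟨0, Finset.mem_univ _⟩
  obtain ⟨j, -, hj⟩ := Finset.exists_max_image Finset.univ f ⟨0, Finset.mem_univ _⟩
  refine ⟨i, j, ?_⟩
  have h : (Finset.univ.image f).card ≤ (Finset.Icc (f i) (f j)).card := by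
    apply Finset.card_le_card
    intro x hx
    simp only [Finset.mem_image, Finset.mem_univ, true_and] at hx
    obtain ⟨a, rfl⟩ := hx
    exact Finset.mem_Icc.mpr ⟨hi a (Finset.mem_univ _), hj a (Finset.mem_univ _)⟩
  rw [Finset.card_image_of_injective _ hf, Finset.card_univ, Fintype.card_fin, Nat.card_Icc] at h
  have := hi j (Finset.mem_univ _)
  omega

/-- For all coprime `p > q ≥ 1` every real number has at most `2 + ⌊(q-2)/(p-q)⌋`
`p/q`-expansions (at most `2` for `q = 1`). -/
theorem result (p q : ℕ) (hq : 1 ≤ q) (hpq : q < p) (hc : p.Coprime q) (x : ℝ) :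
    (Expansions p q x).encard ≤ ((2 + (q - 2) / (p - q) : ℕ) : ℕ∞) := by
  set B := 2 + (q - 2) / (p - q) with hB
  have hB2 : 2 ≤ B := by rw [hB]; exact Nat.le_add_right _ _
  by_contra hcon
  push Not at hcon
  -- B + 1 distinct expansions
  have h1 : ((B + 1 : ℕ) : ℕ∞) ≤ (Expansions p q x).encard := by
    have := Order.add_one_le_of_lt hcon
    simpa using this
  obtain ⟨t, hts, htc⟩ := Set.exists_subset_encard_eq h1
  have htf : t.Finite := Set.finite_of_encard_eq_coe htc
  have hcard : Nat.card t = B + 1 := by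
    have := htf.encard_eq_coe_toFinset_card
    rw [htc] at this
    have h2 : htf.toFinset.card = B + 1 := by exact_mod_cast this.symm
    rw [← h2]
    exact Set.ncard_eq_toFinset_card t htf
  have : Finite t := htf
  obtain ⟨e⟩ : Nonempty (Fin (B+1) ≃ t) := by
    have := Finite.equivFin t
    rw [hcard] at this
    exact ⟨this.symm⟩
  let u : Fin (B+1) → ℕ → ℕ := fun i => (e i : ℕ → ℕ)
  have hu : ∀ i, u i ∈ Expansions p q x := fun i => hts (e i).2
  have hinj : Function.Injective u := fun i j h => e.injective (Subtype.ext h)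
  choose n hn using fun i => (hu i).1.2
  have hup : ∀ i k, u i k < p := fun i => (hu i).1.1
  have hux : ∀ i, val p q (u i) = x := fun i => (hu i).2
  -- a level with distinct prefixes
  have hlev : ∃ k, ∀ i j, i ≠ j → ∃ l < k, u i l ≠ u j l := by
    have h2 : ∀ a : Fin (B+1) × Fin (B+1), ∃ l, a.1 ≠ a.2 → u a.1 l ≠ u a.2 l := by
      intro a
      by_cases h : a.1 = a.2
      · exact ⟨0, fun h' => absurd h h'⟩
      · have : u a.1 ≠ u a.2 := fun h' => h (hinj h')
        obtain ⟨l, hl⟩ := Function.ne_iff.mp this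
        exact ⟨l, fun _ => hl⟩
    choose f hf using h2
    refine ⟨(Finset.univ.sup f) + 1, fun i j hij => ⟨f (i, j), ?_, hf (i, j) hij⟩⟩
    exact Nat.lt_succ_of_le (Finset.le_sup (f := f) (Finset.mem_univ (i, j)))
  obtain ⟨k, hk⟩ := hlev
  have hq0 : (0:ℝ) < q := by exact_mod_cast hq
  have hr : (0:ℝ) < (p:ℝ) - q := by
    have : (q:ℝ) < p := by exact_mod_cast hpq
    linarith
  -- nodes are distinct at all levels l ≥ k
  have hdist : ∀ l ≥ k, Function.Injective (fun i => n i l) := by
    intro l hl i j hij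
    by_contra hne
    obtain ⟨a, ha, hne'⟩ := hk i j hne
    exact hne' (prefix_eq (hup i) (hup j) (hn i) (hn j) l hij a (by omega))
  have hBr : ((p:ℝ) - 1) / ((p:ℝ) - q) ≤ B := by
    rw [div_le_iff₀ hr]
    have h3 := nat_bound hq hpq
    rw [← hB] at h3
    have h4 : ((p - 1 : ℕ) : ℝ) ≤ ((B * (p - q) : ℕ) : ℝ) := by exact_mod_cast h3
    rw [Nat.cast_mul, Nat.cast_sub hpq.le, Nat.cast_sub (by omega)] at h4
    simpa using h4
  have key : ∀ l ≥ k, ∃ N : ℕ, B ≤ N ∧ ((p:ℝ)/q)^l * x = N := by
    intro l hl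
    obtain ⟨i, j, hij⟩ := spread _ (hdist l hl)
    refine ⟨n j l, by omega, ?_⟩
    have a1 := node_le hq hpq (hup j) (hn j) l
    have a2 := le_node' hq hpq (hup i) (hn i) l
    rw [hux] at a1 a2
    have a3 : ((n i l : ℝ)) + B ≤ n j l := by exact_mod_cast hij
    linarith
  rcases Nat.lt_or_ge q 2 with hq2 | hq2
  · -- q = 1
    have hq1 : q = 1 := by omega
    obtain ⟨i, j, hij⟩ := spread _ (hdist k le_rfl)
    have a1 := node_le hq hpq (hup j) (hn j) k
    have a2 := le_node' hq hpq (hup i) (hn i) k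
    rw [hux] at a1 a2
    have a3 : ((n i k : ℝ)) + B ≤ n j k := by exact_mod_cast hij
    have a4 : (2:ℝ) ≤ B := by exact_mod_cast hB2
    have a5 : ((p:ℝ) - 1) / ((p:ℝ) - q) = 1 := by
      rw [hq1]
      rw [hq1] at hr
      push_cast at hr ⊢
      exact div_self hr.ne'
    rw [a5] at a2
    linarith
  · obtain ⟨N, hN, hNx⟩ := key k le_rfl
    have hN0 : 0 < N := by omega
    -- q ^ j divides N for all j
    have hdvd : ∀ j, q ^ j ∣ N := by
      intro j
      obtain ⟨M, -, hM⟩ := key (k + j) (by omega)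
      have h5 : ((p:ℝ)/q)^j * N = M := by
        rw [← hNx, ← hM, pow_add]; ring
      rw [div_pow] at h5
      have h6 : (p:ℝ)^j * N = M * q^j := by
        field_simp at h5
        linarith
      have h7 : p^j * N = M * q^j := by exact_mod_cast h6
      have h8 : q^j ∣ p^j * N := ⟨M, by rw [h7]; ring⟩
      exact (Nat.Coprime.pow j j hc.symm).dvd_of_dvd_mul_left h8
    have h9 := Nat.le_of_dvd hN0 (hdvd N)
    have h10 : N < q ^ N := Nat.lt_pow_self hq2
    omega

end Pool.Agent.Results.MP_e115c2_nt.UniformBound
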